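import Mathlib
import Pool.Agent.H17.VargaDef
import Pool.Agent.H17.Varga3

namespace Pool.Agent.Results.MP_0e199b_al.LargestOrder

open Pool.Agent.H17.Varga

/-- Every `τ`-matrix of order at most `3` satisfies inequality (V), and some `τ`-matrix of order `4`
violates it. -/
theorem result :
    (∀ n : ℕ, 1 ≤ n → n ≤ 3 → ∀ A : Matrix (Fin n) (Fin n) ℂ, IsTau A → IneqV A) ∧
      ∃ A : Matrix (Fin 4) (Fin 4) ℂ, IsTau A ∧ ¬ IneqV A := by
  refine ⟨fun n h1 h3 A hA => ?_, A4, isTau, not_V⟩
  interval_cases n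
  · exact V_one A hA
  · exact V_two A hA
  · exact V_three A hA

end Pool.Agent.Results.MP_0e199b_al.LargestOrder
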